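import Mathlib

/-!
MP_0f91f8_co, ShatteringDichotomy: minimal sets of actions of the multiplicative semigroup of the
positive integers on compact spaces.
-/

open Filter Topology

namespace Pool.Agent.Work.MP_0f91f8_co.Sd

variable {X : Type*} [TopologicalSpace X]

/-- an action of the multiplicative semigroup of the positive integers by continuous maps -/
structure Act (T : ℕ → X → X) : Prop where
  cont : ∀ k : ℕ, 0 < k → Continuous (T k)
  mul : ∀ k m : ℕ, 0 < k → 0 < m → ∀ x, T (k * m) x = T k (T m x)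

/-- invariant sets -/
def Inv (T : ℕ → X → X) (M : Set X) : Prop := ∀ k : ℕ, 0 < k → ∀ x ∈ M, T k x ∈ M

/-- the closure of the orbit of a point -/
def Orb (T : ℕ → X → X) (x : X) : Set X := closure {z : X | ∃ k : ℕ, 0 < k ∧ z = T k x}

/-- minimal sets -/
structure Mnl (T : ℕ → X → X) (M : Set X) : Prop where
  closed : IsClosed M
  ne : M.Nonempty
  inv : Inv T M
  min : ∀ N : Set X, IsClosed N → N.Nonempty → Inv T N → N ⊆ M → M ⊆ N

variable {T : ℕ → X → X}

theorem Act.comm (h : Act T) {k m : ℕ} (hk : 0 < k) (hm : 0 < m) (x : X) :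
    T k (T m x) = T m (T k x) := by
  rw [← h.mul k m hk hm, ← h.mul m k hm hk, mul_comm]

theorem orb_closed (x : X) : IsClosed (Orb T x) := isClosed_closure

theorem mem_orb {k : ℕ} (hk : 0 < k) (x : X) : T k x ∈ Orb T x := subset_closure ⟨k, hk, rfl⟩

theorem orb_inv (h : Act T) (x : X) : Inv T (Orb T x) := by
  intro k hk z hz
  have h1 : T k z ∈ closure (T k '' {z : X | ∃ k : ℕ, 0 < k ∧ z = T k x}) :=
    image_closure_subset_closure_image (h.cont k hk) ⟨z, hz, rfl⟩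
  refine closure_mono ?_ h1
  rintro _ ⟨_, ⟨m, hm, rfl⟩, rfl⟩
  exact ⟨k * m, Nat.mul_pos hk hm, (h.mul k m hk hm x).symm⟩

theorem orb_sub {M : Set X} (hc : IsClosed M) (hi : Inv T M) {x : X} (hx : x ∈ M) :
    Orb T x ⊆ M := by
  refine closure_minimal ?_ hc
  rintro _ ⟨k, hk, rfl⟩
  exact hi k hk x hx

theorem Mnl.orb_eq (h : Act T) {M : Set X} (hM : Mnl T M) {x : X} (hx : x ∈ M) :
    Orb T x = M :=
  Set.Subset.antisymm (orb_sub hM.closed hM.inv hx)
    (hM.min _ (orb_closed x) ⟨_, mem_orb Nat.one_pos x⟩ (orb_inv h x) (orb_sub hM.closed hM.inv hx))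

theorem Mnl.hit (h : Act T) {M : Set X} (hM : Mnl T M) {x : X} (hx : x ∈ M) {O : Set X}
    (hO : IsOpen O) (hOM : (O ∩ M).Nonempty) : ∃ k : ℕ, 0 < k ∧ T k x ∈ O := by
  obtain ⟨y, hyO, hyM⟩ := hOM
  rw [← hM.orb_eq h hx] at hyM
  obtain ⟨z, hz, k, hk, rfl⟩ := mem_closure_iff.1 hyM O hO hyO
  exact ⟨k, hk, hz⟩

/-- a point that returns from its whole orbit closure has minimal orbit closure -/
theorem mnl_orb (h : Act T) {p : X} (hp : ∀ q ∈ Orb T p, p ∈ Orb T q) : Mnl T (Orb T p) := by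
  refine ⟨orb_closed p, ⟨_, mem_orb Nat.one_pos p⟩, orb_inv h p, ?_⟩
  intro N hNc ⟨q, hq⟩ hNi hN
  have h1 : p ∈ N := orb_sub hNc hNi hq (hp q (hN hq))
  exact orb_sub hNc hNi h1

/-- uniform hitting times -/
theorem Mnl.cover [CompactSpace X] (h : Act T) {M : Set X} (hM : Mnl T M) {O : Set X}
    (hO : IsOpen O) (hOM : (O ∩ M).Nonempty) :
    ∃ F : Finset ℕ, (∀ s ∈ F, 0 < s) ∧ ∀ q ∈ M, ∃ s ∈ F, T s q ∈ O := by
  have hcomp : IsCompact M := hM.closed.isCompact
  obtain ⟨t, ht⟩ := hcomp.elim_finite_subcover (fun k : {k : ℕ // 0 < k} => T k.1 ⁻¹' O)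
    (fun k => hO.preimage (h.cont k.1 k.2)) (by
      intro q hq
      obtain ⟨k, hk, hkO⟩ := hM.hit h hq hO hOM
      exact Set.mem_iUnion.2 ⟨⟨k, hk⟩, hkO⟩)
  classical
  refine ⟨t.image Subtype.val, ?_, ?_⟩
  · intro s hs
    obtain ⟨k, -, rfl⟩ := Finset.mem_image.1 hs
    exact k.2
  · intro q hq
    obtain ⟨k, hk, hkq⟩ := Set.mem_iUnion₂.1 (ht hq)
    exact ⟨k.1, Finset.mem_image_of_mem _ hk, hkq⟩

/-- the maps are surjective on minimal sets -/
theorem Mnl.surj [CompactSpace X] [T2Space X] (h : Act T) {M : Set X} (hM : Mnl T M) {s : ℕ}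
    (hs : 0 < s) {w : X} (hw : w ∈ M) : ∃ v ∈ M, T s v = w := by
  have h1 : IsClosed (T s '' M) := (hM.closed.isCompact.image (h.cont s hs)).isClosed
  have h2 : Inv T (T s '' M) := by
    rintro k hk _ ⟨x, hx, rfl⟩
    exact ⟨T k x, hM.inv k hk x hx, (h.comm hs hk x)⟩
  have h3 : T s '' M ⊆ M := by
    rintro _ ⟨x, hx, rfl⟩
    exact hM.inv s hs x hx
  obtain ⟨v, hv, hvw⟩ := hM.min _ h1 (hM.ne.image _) h2 h3 hw
  exact ⟨v, hv, hvw⟩

/-- every nonempty closed invariant set contains a minimal set -/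
theorem exists_mnl [CompactSpace X] {K : Set X} (hc : IsClosed K) (hne : K.Nonempty)
    (hi : Inv T K) : ∃ M, Mnl T M ∧ M ⊆ K := by
  let S : Set (Set X) := {N | IsClosed N ∧ N.Nonempty ∧ Inv T N ∧ N ⊆ K}
  have hz : ∀ c ⊆ S, IsChain (· ⊆ ·) c → c.Nonempty → ∃ lb ∈ S, ∀ s ∈ c, lb ⊆ s := by
    intro c hcS hch hcne
    refine ⟨⋂₀ c, ⟨isClosed_sInter fun s hs => (hcS hs).1, ?_, ?_, ?_⟩,
      fun s hs => Set.sInter_subset_of_mem hs⟩
    · have : Nonempty c := hcne.to_subtype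
      rw [Set.sInter_eq_iInter]
      refine IsCompact.nonempty_iInter_of_directed_nonempty_isCompact_isClosed
        (fun s : c => (s : Set X)) ?_ (fun s => (hcS s.2).2.1)
        (fun s => (hcS s.2).1.isCompact) (fun s => (hcS s.2).1)
      intro a b
      rcases hch.total a.2 b.2 with h | h
      · exact ⟨a, subset_rfl, h⟩
      · exact ⟨b, h, subset_rfl⟩
    · intro k hk x hx s hs
      exact (hcS hs).2.2.1 k hk x (hx s hs)
    · obtain ⟨s, hs⟩ := hcne
      exact (Set.sInter_subset_of_mem hs).trans (hcS hs).2.2.2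
  obtain ⟨M, hMK, hM⟩ := zorn_superset_nonempty S hz K ⟨hc, hne, hi, subset_rfl⟩
  refine ⟨M, ⟨hM.prop.1, hM.prop.2.1, hM.prop.2.2.1, ?_⟩, hMK⟩
  intro N hNc hNne hNi hNM
  exact hM.le_of_le ⟨hNc, hNne, hNi, hNM.trans hM.prop.2.2.2⟩ hNM

/-- product of two actions -/
def P2 {Y : Type*} (T : ℕ → X → X) (S : ℕ → Y → Y) : ℕ → X × Y → X × Y :=
  fun k p => (T k p.1, S k p.2)

theorem act_prod {Y : Type*} [TopologicalSpace Y] {S : ℕ → Y → Y} (h : Act T) (h' : Act S) :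
    Act (P2 T S) := by
  refine ⟨fun k hk => ?_, fun k m hk hm p => ?_⟩
  · exact ((h.cont k hk).comp continuous_fst).prodMk ((h'.cont k hk).comp continuous_snd)
  · simp only [P2, h.mul k m hk hm, h'.mul k m hk hm]

/-- finitely many closed sets that cover a nonempty relatively open part of `M`: one of them
contains a nonempty relatively open part -/
theorem finite_baire {M : Set X} (P : ℕ → Set X) (hP : ∀ s, IsClosed (P s)) (F : Finset ℕ) :
    ∀ V : Set X, IsOpen V → (V ∩ M).Nonempty → V ∩ M ⊆ ⋃ s ∈ F, P s →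
      ∃ s ∈ F, ∃ D : Set X, IsOpen D ∧ (D ∩ M).Nonempty ∧ D ∩ M ⊆ P s := by
  classical
  induction F using Finset.induction_on with
  | empty =>
    intro V _ ⟨x, hx⟩ hV
    simpa using hV hx
  | insert s F hs ih =>
    intro V hVo hVne hV
    by_cases hc : V ∩ M ⊆ P s
    · exact ⟨s, Finset.mem_insert_self _ _, V, hVo, hVne, hc⟩
    · obtain ⟨x, hx, hxs⟩ := Set.not_subset.1 hc
      obtain ⟨s', hs', D, hD⟩ := ih (V ∩ (P s)ᶜ) (hVo.inter (hP s).isOpen_compl)
        ⟨x, ⟨hx.1, hxs⟩, hx.2⟩ (by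
          rintro y ⟨⟨hyV, hys⟩, hyM⟩
          obtain ⟨i, hi, hyi⟩ := Set.mem_iUnion₂.1 (hV ⟨hyV, hyM⟩)
          rcases Finset.mem_insert.1 hi with rfl | hi'
          · exact absurd hyi hys
          · exact Set.mem_iUnion₂.2 ⟨i, hi', hyi⟩)
      exact ⟨s', Finset.mem_insert_of_mem hs', D, hD⟩

end Pool.Agent.Work.MP_0f91f8_co.Sd
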