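import Mathlib
import Pool.Agent.Work.MP_0f91f8_co.Sd.Basic

/-!
MP_0f91f8_co, ShatteringDichotomy: independence sets from a transitive relation with dense
minimal points.
-/

open Filter Topology

namespace Pool.Agent.Work.MP_0f91f8_co.Sd

/-- multiplicatively thick sets -/
def Thick (H : Set ℕ) : Prop :=
  ∀ S : Finset ℕ, (∀ s ∈ S, 0 < s) → ∃ k : ℕ, 0 < k ∧ ∀ s ∈ S, s * k ∈ H

variable {X : Type*} [TopologicalSpace X] {T : ℕ → X → X}

/-- the induction hypothesis -/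
def Good (T : ℕ → X → X) (J : Set (X × (X × X))) (U : Bool → Set X) (F : Finset ℕ) : Prop :=
  ∀ E : ℕ → Bool, ∃ q ∈ J, q.2 ∈ U true ×ˢ U false ∧ ∀ t ∈ F, T t q.1 ∈ U (E t)

/-- one more element -/
theorem step [CompactSpace X] [T2Space X] (h : Act T) {M : Set X} (hM : Mnl T M)
    {L : Set (X × X)} (hLM : L ⊆ M ×ˢ M) (hLd : ∀ x ∈ M, (x, x) ∈ L)
    (htr : ∀ V W : Set (X × X), IsOpen V → IsOpen W → (L ∩ V).Nonempty → (L ∩ W).Nonempty →
          ∃ k : ℕ, 0 < k ∧ ∃ p ∈ L ∩ V, P2 T T k p ∈ W)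
    (hde : ∀ V : Set (X × X), IsOpen V → (L ∩ V).Nonempty → ∃ p ∈ L ∩ V,
          ∀ q ∈ Orb (P2 T T) p, p ∈ Orb (P2 T T) q)
    {U : Bool → Set X} (hU : ∀ b, IsOpen (U b))
    {N : Set (X × X)} (hN : Mnl (P2 T T) N) (hNL : N ⊆ L)
    {J : Set (X × (X × X))} (hJ : Mnl (P2 T (P2 T T)) J) (hJMN : J ⊆ M ×ˢ N)
    {p : X} {w : X × X} (hpw : (p, w) ∈ J)
    {F : Finset ℕ} (hF : ∀ t ∈ F, 0 < t) (hG : Good T J U F) {H : Set ℕ} (hH : Thick H) :
    ∃ t' ∈ H, (∀ t ∈ F, t < t') ∧ 0 < t' ∧ Good T J U (insert t' F) := by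
  classical
  have h2 : Act (P2 T T) := act_prod h h
  have h3 : Act (P2 T (P2 T T)) := act_prod h h2
  -- the open sets
  let B : Finset ℕ → Set (X × (X × X)) := fun E =>
    {q | q.2 ∈ U true ×ˢ U false ∧ ∀ t ∈ F, T t q.1 ∈ U (decide (t ∈ E))}
  have hB : ∀ E, IsOpen (B E) := by
    intro E
    have e1 : B E = (Prod.snd ⁻¹' (U true ×ˢ U false)) ∩
        ⋂ t ∈ F, (fun q : X × (X × X) => T t q.1) ⁻¹' (U (decide (t ∈ E))) := by
      ext q; simp [B]
    rw [e1]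
    refine (((hU true).prod (hU false)).preimage continuous_snd).inter ?_
    exact isOpen_biInter_finset fun t ht =>
      (hU _).preimage ((h.cont t (hF t ht)).comp continuous_fst)
  have hBJ : ∀ E, (B E ∩ J).Nonempty := by
    intro E
    obtain ⟨q, hqJ, hq2, hq⟩ := hG (fun t => decide (t ∈ E))
    exact ⟨q, ⟨hq2, hq⟩, hqJ⟩
  choose g hg0 hg using fun E => hJ.hit h3 hpw (hB E) (hBJ E)
  -- the neighbourhood of (p, w)
  let O : Set (X × (X × X)) := ⋂ E ∈ F.powerset, P2 T (P2 T T) (g E) ⁻¹' (B E)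
  have hO : IsOpen O := isOpen_biInter_finset fun E _ => (hB E).preimage (h3.cont _ (hg0 E))
  have hOp : (p, w) ∈ O := Set.mem_iInter₂.2 fun E _ => hg E
  obtain ⟨C, hCn, hCc, hCO⟩ := exists_mem_nhds_isClosed_subset (hO.mem_nhds hOp)
  have hCi : (p, w) ∈ interior C := mem_interior_iff_mem_nhds.2 hCn
  obtain ⟨Fs, hFs0, hFs⟩ := hJ.cover h3 isOpen_interior ⟨_, hCi, hpw⟩
  -- projections
  have hproj : Prod.fst '' J = M := by
    refine Set.Subset.antisymm ?_ ?_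
    · rintro _ ⟨q, hq, rfl⟩
      exact (hJMN hq).1
    · refine hM.min _ (hJ.closed.isCompact.image continuous_fst).isClosed (hJ.ne.image _) ?_ ?_
      · rintro k hk _ ⟨q, hq, rfl⟩
        exact ⟨P2 T (P2 T T) k q, hJ.inv k hk q hq, rfl⟩
      · rintro _ ⟨q, hq, rfl⟩
        exact (hJMN hq).1
  let P : ℕ → Set X := fun s => if hs : 0 < s then
    Prod.fst '' (J ∩ P2 T (P2 T T) s ⁻¹' C) else ∅
  have hPc : ∀ s, IsClosed (P s) := by
    intro s
    by_cases hs : 0 < s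
    · simp only [P, hs, dif_pos]
      exact ((hJ.closed.inter (hCc.preimage (h3.cont s hs))).isCompact.image
        continuous_fst).isClosed
    · simp only [P, hs, dif_neg, not_false_eq_true]
      exact isClosed_empty
  obtain ⟨s, hs, D, hDo, ⟨d, hdD, hdM⟩, hDP⟩ := finite_baire (M := M) P hPc Fs Set.univ
    isOpen_univ (by simpa using hM.ne) (by
      rintro x ⟨-, hx⟩
      rw [← hproj] at hx
      obtain ⟨q, hq, rfl⟩ := hx
      obtain ⟨s, hs, hsq⟩ := hFs q hq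
      refine Set.mem_iUnion₂.2 ⟨s, hs, ?_⟩
      simp only [P, hFs0 s hs, dif_pos]
      exact ⟨q, ⟨hq, show P2 T (P2 T T) s q ∈ C from interior_subset hsq⟩, rfl⟩)
  have hs0 : 0 < s := hFs0 s hs
  have hwN : w ∈ N := (hJMN hpw).2
  obtain ⟨w', hw'N, hw'⟩ := hN.surj h2 hs0 hwN
  -- the second open set
  let Q : Set (X × X) := ⋂ E ∈ F.powerset, P2 T T (s * g E) ⁻¹' (U true ×ˢ U false)
  have hQ : IsOpen Q := isOpen_biInter_finset fun E _ =>
    ((hU true).prod (hU false)).preimage (h2.cont _ (Nat.mul_pos hs0 (hg0 E)))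
  have hQw : w' ∈ Q := by
    refine Set.mem_iInter₂.2 fun E _ => ?_
    have e1 : P2 T T (s * g E) w' = P2 T T (g E) w := by
      rw [mul_comm, h2.mul _ _ (hg0 E) hs0, hw']
    rw [Set.mem_preimage, e1]
    exact (hg E).1
  obtain ⟨k, hk0, p', hp', hkp'⟩ := htr (D ×ˢ D) Q (hDo.prod hDo) hQ
    ⟨(d, d), hLd d hdM, hdD, hdD⟩ ⟨w', hNL hw'N, hQw⟩
  have hO3 : IsOpen ((D ×ˢ D) ∩ P2 T T k ⁻¹' Q) :=
    (hDo.prod hDo).inter (hQ.preimage (h2.cont k hk0))
  obtain ⟨m, ⟨hmL, hmD, hmQ⟩, hm⟩ := hde _ hO3 ⟨p', hp'.1, hp'.2, hkp'⟩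
  have hmm : Mnl (P2 T T) (Orb (P2 T T) m) := mnl_orb h2 hm
  have hmem : m ∈ Orb (P2 T T) m := orb_sub (orb_closed _) (orb_inv h2 _)
    (mem_orb Nat.one_pos m) (hm _ (mem_orb Nat.one_pos m))
  obtain ⟨Fm, hFm0, hFm⟩ := hmm.cover h2 hO3 ⟨m, ⟨hmD, hmQ⟩, hmem⟩
  -- the new element
  obtain ⟨C0, hC0e⟩ : ∃ C0 : ℕ, C0 = F.sup id + 1 := ⟨_, rfl⟩
  have hC00 : 0 < C0 := by omega
  obtain ⟨c, hc0, hc⟩ := hH (Fm.image fun f => k * f * C0) (by
    intro x hx
    obtain ⟨f, hf, rfl⟩ := Finset.mem_image.1 hx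
    exact Nat.mul_pos (Nat.mul_pos hk0 (hFm0 f hf)) hC00)
  obtain ⟨f, hf, hfO⟩ := hFm (P2 T T (C0 * c) m) (mem_orb (Nat.mul_pos hC00 hc0) m)
  have hf0 := hFm0 f hf
  have ht0 : 0 < k * f * C0 * c :=
    Nat.mul_pos (Nat.mul_pos (Nat.mul_pos hk0 hf0) hC00) hc0
  have hC0 : C0 ≤ k * f * C0 * c := by
    have h1 : 1 ≤ k * f := Nat.mul_pos hk0 hf0
    calc C0 = 1 * C0 * 1 := by ring
      _ ≤ k * f * C0 * c := Nat.mul_le_mul (Nat.mul_le_mul h1 le_rfl) hc0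
  have htQ : P2 T T (k * f * C0 * c) m ∈ Q := by
    have e1 : P2 T T (k * f * C0 * c) m = P2 T T k (P2 T T f (P2 T T (C0 * c) m)) := by
      rw [← h2.mul _ _ hf0 (Nat.mul_pos hC00 hc0), ← h2.mul _ _ hk0
        (Nat.mul_pos hf0 (Nat.mul_pos hC00 hc0))]
      congr 1
      ring
    rw [e1]
    exact hfO.2
  refine ⟨k * f * C0 * c, hc _ (Finset.mem_image_of_mem _ hf), ?_, ht0, ?_⟩
  · intro t ht
    have h1 : t ≤ F.sup id := Finset.le_sup (f := id) ht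
    exact lt_of_lt_of_le (by omega) hC0
  · generalize k * f * C0 * c = t' at htQ ht0 hC0
    have htF : t' ∉ F := fun ht => by
      have h1 : t' ≤ F.sup id := Finset.le_sup (f := id) ht
      omega
    intro E
    -- the chosen point
    have key : ∀ x : X, x ∈ D → x ∈ M → (T t' (T (s * g (F.filter fun t => E t = true)) x) ∈
        U (E t')) → ∃ q ∈ J, q.2 ∈ U true ×ˢ U false ∧ ∀ t ∈ insert t' F, T t q.1 ∈ U (E t) := by
      intro x hxD hxM hx
      have hxP := hDP ⟨hxD, hxM⟩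
      simp only [P, hs0, dif_pos] at hxP
      obtain ⟨⟨x1, v⟩, ⟨hqJ, hqC⟩, rfl⟩ := hxP
      set E0 : Finset ℕ := F.filter fun t => E t = true with hE0
      have hqO := hCO hqC
      have hqB : P2 T (P2 T T) (g E0) (P2 T (P2 T T) s (x1, v)) ∈ B E0 :=
        Set.mem_iInter₂.1 hqO E0 (Finset.mem_powerset.2 (Finset.filter_subset _ _))
      rw [← h3.mul _ _ (hg0 E0) hs0, mul_comm] at hqB
      refine ⟨_, hJ.inv (s * g E0) (Nat.mul_pos hs0 (hg0 E0)) _ hqJ, hqB.1, ?_⟩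
      intro t ht
      rcases Finset.mem_insert.1 ht with rfl | ht
      · exact hx
      · have h1 := hqB.2 t ht
        have h2 : decide (t ∈ E0) = E t := by
          by_cases hEt : E t = true
          · rw [hEt]; simp [hE0, ht, hEt]
          · have : E t = false := by simpa using hEt
            rw [this]; simp [hE0, hEt]
        rw [h2] at h1
        exact h1
    set E0 : Finset ℕ := F.filter fun t => E t = true with hE0
    have hQ0 : P2 T T (s * g E0) (P2 T T t' m) ∈ U true ×ˢ U false :=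
      Set.mem_iInter₂.1 htQ E0 (Finset.mem_powerset.2 (Finset.filter_subset _ _))
    rw [h2.comm (Nat.mul_pos hs0 (hg0 E0)) ht0] at hQ0
    have hmM := hLM hmL
    cases hEt : E t' with
    | true =>
      refine key m.1 hmD.1 hmM.1 ?_
      rw [hEt]
      exact hQ0.1
    | false =>
      refine key m.2 hmD.2 hmM.2 ?_
      rw [hEt]
      exact hQ0.2

/-- the infinite sequence -/
theorem seq [CompactSpace X] [T2Space X] (h : Act T) {M : Set X} (hM : Mnl T M)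
    {L : Set (X × X)} (hLM : L ⊆ M ×ˢ M) (hLd : ∀ x ∈ M, (x, x) ∈ L)
    (hLc : IsClosed L) (hLi : Inv (P2 T T) L)
    (htr : ∀ V W : Set (X × X), IsOpen V → IsOpen W → (L ∩ V).Nonempty → (L ∩ W).Nonempty →
          ∃ k : ℕ, 0 < k ∧ ∃ p ∈ L ∩ V, P2 T T k p ∈ W)
    (hde : ∀ V : Set (X × X), IsOpen V → (L ∩ V).Nonempty → ∃ p ∈ L ∩ V,
          ∀ q ∈ Orb (P2 T T) p, p ∈ Orb (P2 T T) q)
    {U : Bool → Set X} (hU : ∀ b, IsOpen (U b)) (hLU : (L ∩ U true ×ˢ U false).Nonempty)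
    {H : Finset ℕ → Set ℕ} (hH : ∀ F, Thick (H F)) :
    ∃ t : ℕ → ℕ, StrictMono t ∧ (∀ n, 0 < t n) ∧ (∀ n, t n ∈ H ((Finset.range n).image t)) ∧
      ∀ (n : ℕ) (E : ℕ → Bool), ∃ a ∈ M, ∀ l < n, T (t l) a ∈ U (E l) := by
  classical
  have h2 : Act (P2 T T) := act_prod h h
  have h3 : Act (P2 T (P2 T T)) := act_prod h h2
  obtain ⟨w, ⟨hwL, hwU⟩, hw⟩ := hde _ ((hU true).prod (hU false)) hLU
  have hN : Mnl (P2 T T) (Orb (P2 T T) w) := mnl_orb h2 hw
  have hwN : w ∈ Orb (P2 T T) w := orb_sub (orb_closed _) (orb_inv h2 _)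
    (mem_orb Nat.one_pos w) (hw _ (mem_orb Nat.one_pos w))
  have hNL : Orb (P2 T T) w ⊆ L := orb_sub hLc hLi hwL
  obtain ⟨J, hJ, hJMN⟩ := exists_mnl (T := P2 T (P2 T T)) (hM.closed.prod hN.closed)
    (hM.ne.prod hN.ne) (by
      rintro k hk ⟨x, y⟩ ⟨hx, hy⟩
      exact ⟨hM.inv k hk x hx, hN.inv k hk y hy⟩)
  have hproj : w ∈ Prod.snd '' J := by
    refine hN.min _ (hJ.closed.isCompact.image continuous_snd).isClosed (hJ.ne.image _) ?_ ?_ hwN
    · rintro k hk _ ⟨q, hq, rfl⟩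
      exact ⟨P2 T (P2 T T) k q, hJ.inv k hk q hq, rfl⟩
    · rintro _ ⟨q, hq, rfl⟩
      exact (hJMN hq).2
  obtain ⟨⟨p, w1⟩, hpJ, rfl⟩ := hproj
  have key : ∀ F : {F : Finset ℕ // (∀ t ∈ F, 0 < t) ∧ Good T J U F},
      ∃ t' ∈ H F.1, (∀ t ∈ F.1, t < t') ∧ 0 < t' ∧ Good T J U (insert t' F.1) := fun F =>
    step h hM hLM hLd htr hde hU hN hNL hJ hJMN hpJ F.2.1 F.2.2 (hH F.1)
  choose nxt hn1 hn2 hn3 hn4 using key
  let FF : ℕ → {F : Finset ℕ // (∀ t ∈ F, 0 < t) ∧ Good T J U F} := fun n =>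
    Nat.rec ⟨∅, ⟨by simp, fun E => ⟨(p, w1), hpJ, hwU, by simp⟩⟩⟩
      (fun _ F => ⟨insert (nxt F) F.1, ⟨fun t ht => by
        rcases Finset.mem_insert.1 ht with rfl | ht
        · exact hn3 F
        · exact F.2.1 t ht, hn4 F⟩⟩) n
  have hFF : ∀ n, (FF (n + 1)).1 = insert (nxt (FF n)) (FF n).1 := fun n => rfl
  have hFt : ∀ n, (FF n).1 = (Finset.range n).image fun l => nxt (FF l) := by
    intro n
    induction n with
    | zero => rfl
    | succ n ih => rw [hFF, ih, Finset.range_add_one, Finset.image_insert]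
  have hmono : StrictMono fun l => nxt (FF l) := by
    refine strictMono_nat_of_lt_succ fun n => ?_
    refine hn2 (FF (n + 1)) _ ?_
    rw [hFF]
    exact Finset.mem_insert_self _ _
  refine ⟨fun l => nxt (FF l), hmono, fun n => hn3 _, fun n => ?_, fun n E => ?_⟩
  · rw [← hFt]
    exact hn1 _
  · obtain ⟨q, hqJ, -, hq⟩ := (FF n).2.2 fun x => E (Function.invFun (fun l => nxt (FF l)) x)
    refine ⟨q.1, (hJMN hqJ).1, fun l hl => ?_⟩
    have h1 := hq (nxt (FF l)) (by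
      rw [hFt]
      exact Finset.mem_image_of_mem _ (Finset.mem_range.2 hl))
    have h2 : Function.invFun (fun l => nxt (FF l)) (nxt (FF l)) = l :=
      Function.leftInverse_invFun hmono.injective l
    rw [h2] at h1
    exact h1

end Pool.Agent.Work.MP_0f91f8_co.Sd
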