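import Pool.Agent.Work.MP_0f91f8_co.Lg.All
import Pool.Agent.Work.MP_0f91f8_co.Sd.Shatter

/-!
MP_0f91f8_co, ShatteringDichotomy: a finite colouring has a monochromatic Pythagorean triple or
its dilates shatter an infinite set.
-/

open Filter Topology

namespace Pool.Agent.Work.MP_0f91f8_co.Sd

/-- dilations of colourings -/
def dil {r : ℕ} (k : ℕ) (x : ℕ → Fin r) : ℕ → Fin r := fun n => x (k * n)

theorem act_dil (r : ℕ) : Act (X := ℕ → Fin r) dil := by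
  refine ⟨fun k _ => continuous_pi fun n => continuous_apply (k * n), fun k m _ _ x => ?_⟩
  funext n
  show x (k * m * n) = x (m * (k * n))
  congr 1
  ring

theorem open_coord {r : ℕ} (n : ℕ) (I : Set (Fin r)) : IsOpen {x : ℕ → Fin r | x n ∈ I} :=
  (isOpen_discrete I).preimage (continuous_apply n)

theorem closed_coord {r : ℕ} (n : ℕ) (I : Set (Fin r)) : IsClosed {x : ℕ → Fin r | x n ∈ I} :=
  (isClosed_discrete I).preimage (continuous_apply n)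

/-- the minimal set -/
theorem exists_M {r : ℕ} (c : ℕ → Fin r) (I : Set (Fin r)) (A : Set ℕ) (S₀ : Finset ℕ)
    (hS₀ : ∀ s ∈ S₀, 0 < s)
    (hA : ∀ S : Finset ℕ, (∀ s ∈ S, 0 < s) →
      ∃ k : ℕ, 0 < k ∧ ∀ s ∈ S, s * k ∈ A ∧ ∃ s₀ ∈ S₀, c (s₀ * (s * k)) ∈ I) :
    ∃ M : Set (ℕ → Fin r), Mnl dil M ∧ (∀ x ∈ M, x 0 = c 0) ∧ (∃ x ∈ M, x 1 ∈ I) ∧
      ∀ V : Set (ℕ → Fin r), IsOpen V → (V ∩ M).Nonempty → ∀ S : Finset ℕ, (∀ s ∈ S, 0 < s) →
        ∃ k : ℕ, 0 < k ∧ dil k c ∈ V ∧ ∀ s ∈ S, s * k ∈ A := by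
  classical
  have hact := act_dil r
  choose k hk0 hk using fun j : ℕ => hA (Finset.Icc 1 j) fun s hs => (Finset.mem_Icc.1 hs).1
  obtain ⟨x', -, hx'⟩ := isCompact_univ.exists_mapClusterPt (f := atTop)
    (u := fun j : ℕ => dil (k j) c) (by simp)
  -- the base property at x'
  have hbase : ∀ m : ℕ, 0 < m → ∀ V : Set (ℕ → Fin r), IsOpen V → dil m x' ∈ V →
      ∀ S : Finset ℕ, (∀ s ∈ S, 0 < s) → ∃ k : ℕ, 0 < k ∧ dil k c ∈ V ∧
        ∀ s ∈ S, s * k ∈ A ∧ ∃ s₀ ∈ S₀, c (s₀ * (s * k)) ∈ I := by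
    intro m hm V hV hmV S hS
    have h1 : dil m ⁻¹' V ∈ 𝓝 x' := (hV.preimage (hact.cont m hm)).mem_nhds hmV
    have h2 := (mapClusterPt_iff_frequently.1 hx') _ h1
    obtain ⟨j, hj, hjV⟩ := (h2.and_eventually (eventually_ge_atTop (S.sup id * m))).exists.imp
      fun j h => And.intro h.2 h.1
    refine ⟨m * k j, Nat.mul_pos hm (hk0 j), ?_, fun s hs => ?_⟩
    · rw [hact.mul m (k j) hm (hk0 j)]
      exact hjV
    · have h3 : s ≤ S.sup id := Finset.le_sup (f := id) hs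
      have h4 := hk j (s * m) (Finset.mem_Icc.2 ⟨Nat.mul_pos (hS s hs) hm,
        (Nat.mul_le_mul_right m h3).trans hj⟩)
      rw [mul_assoc] at h4
      exact h4
  obtain ⟨M, hM, hMO⟩ := exists_mnl (T := dil) (orb_closed x')
    ⟨_, mem_orb Nat.one_pos x'⟩ (orb_inv hact x')
  have hprop : ∀ V : Set (ℕ → Fin r), IsOpen V → (V ∩ M).Nonempty → ∀ S : Finset ℕ,
      (∀ s ∈ S, 0 < s) → ∃ k : ℕ, 0 < k ∧ dil k c ∈ V ∧
        ∀ s ∈ S, s * k ∈ A ∧ ∃ s₀ ∈ S₀, c (s₀ * (s * k)) ∈ I := by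
    intro V hV ⟨y, hyV, hyM⟩ S hS
    obtain ⟨z, hzV, m, hm, rfl⟩ := mem_closure_iff.1 (hMO hyM) V hV hyV
    exact hbase m hm V hV hzV S hS
  refine ⟨M, hM, ?_, ?_, fun V hV hVM S hS => ?_⟩
  · intro x hx
    by_contra hne
    obtain ⟨k, -, hk, -⟩ := hprop {y | y 0 ∈ ({c 0}ᶜ : Set (Fin r))} (open_coord 0 _)
      ⟨x, hne, hx⟩ ∅ (by simp)
    exact hk rfl
  · obtain ⟨y, hy⟩ := hM.ne
    have h1 : ∃ s₀ ∈ S₀, y s₀ ∈ I := by
      by_contra hno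
      push Not at hno
      obtain ⟨k, hk0, hk, hk'⟩ := hprop (⋂ s₀ ∈ S₀, {x : ℕ → Fin r | x s₀ ∈ Iᶜ})
        (isOpen_biInter_finset fun s₀ _ => open_coord s₀ Iᶜ)
        ⟨y, Set.mem_iInter₂.2 hno, hy⟩ {1} (by simp)
      obtain ⟨-, s₀, hs₀, hc⟩ := hk' 1 (Finset.mem_singleton_self 1)
      have h2 : c (k * s₀) ∈ Iᶜ := Set.mem_iInter₂.1 hk s₀ hs₀
      rw [one_mul, mul_comm] at hc
      exact h2 hc
    obtain ⟨s₀, hs₀, hys⟩ := h1
    refine ⟨dil s₀ y, hM.inv s₀ (hS₀ s₀ hs₀) y hy, ?_⟩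
    show y (s₀ * 1) ∈ I
    rw [mul_one]
    exact hys
  · obtain ⟨k, hk0, hk, hk'⟩ := hprop V hV hVM S hS
    exact ⟨k, hk0, hk, fun s hs => (hk' s hs).1⟩

/-- THE DICHOTOMY -/
theorem dichotomy {r : ℕ} (c : ℕ → Fin r) (I : Set (Fin r)) (A : Set ℕ) (S₀ : Finset ℕ)
    (hS₀ : ∀ s ∈ S₀, 0 < s)
    (hA : ∀ S : Finset ℕ, (∀ s ∈ S, 0 < s) →
      ∃ k : ℕ, 0 < k ∧ ∀ s ∈ S, s * k ∈ A ∧ ∃ s₀ ∈ S₀, c (s₀ * (s * k)) ∈ I) :
    (∃ x y z : ℕ, 0 < x ∧ 0 < y ∧ 0 < z ∧ x ^ 2 + y ^ 2 = z ^ 2 ∧ x ∈ A ∧ y ∈ A ∧ z ∈ A ∧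
      c x = c y ∧ c y = c z ∧ c z ∈ I) ∨
    ∃ i j : Fin r, i ≠ j ∧ ∀ H : Finset ℕ → Set ℕ,
      (∀ F S : Finset ℕ, (∀ s ∈ S, 0 < s) → ∃ k : ℕ, 0 < k ∧ ∀ s ∈ S, s * k ∈ H F) →
      ∃ t : ℕ → ℕ, StrictMono t ∧ (∀ n, 0 < t n) ∧
        (∀ n, t n ∈ H ((Finset.range n).image t)) ∧
        ∀ (n : ℕ) (E : Set ℕ), ∃ k : ℕ, 0 < k ∧ ∀ l < n, k * t l ∈ A ∧
          (l ∈ E → c (k * t l) = i) ∧ (l ∉ E → c (k * t l) = j) := by
  classical
  obtain ⟨M, hM, hM0, ⟨x1, hx1M, hx1⟩, hMA⟩ := exists_M c I A S₀ hS₀ hA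
  have hact := act_dil r
  by_contra hcon
  push Not at hcon
  obtain ⟨hno, hsh⟩ := hcon
  -- Bronstein's condition
  have hB : ∀ L : Set ((ℕ → Fin r) × (ℕ → Fin r)), IsClosed L → L ⊆ M ×ˢ M →
      (∀ x ∈ M, (x, x) ∈ L) →
        (∀ k : ℕ, 0 < k → ∀ p ∈ L, (dil k p.1, dil k p.2) ∈ L) →
        (∀ V W : Set ((ℕ → Fin r) × (ℕ → Fin r)), IsOpen V → IsOpen W → (L ∩ V).Nonempty →
          (L ∩ W).Nonempty → ∃ k : ℕ, 0 < k ∧ ∃ p ∈ L ∩ V, (dil k p.1, dil k p.2) ∈ W) →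
        (∀ V : Set ((ℕ → Fin r) × (ℕ → Fin r)), IsOpen V → (L ∩ V).Nonempty → ∃ p ∈ L ∩ V,
          ∀ q ∈ closure {q : (ℕ → Fin r) × (ℕ → Fin r) | ∃ k : ℕ, 0 < k ∧
            q = (dil k p.1, dil k p.2)},
            p ∈ closure {r' : (ℕ → Fin r) × (ℕ → Fin r) | ∃ k : ℕ, 0 < k ∧
              r' = (dil k q.1, dil k q.2)}) →
        ∀ p ∈ L, p.1 = p.2 := by
    intro L hLc hLM hLd hLi htr hde p hp
    by_contra hne
    obtain ⟨n₀, hn₀⟩ := Function.ne_iff.1 hne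
    have hn0 : 0 < n₀ := by
      rcases Nat.eq_zero_or_pos n₀ with rfl | h
      · exact absurd ((hM0 _ (hLM hp).1).trans (hM0 _ (hLM hp).2).symm) hn₀
      · exact h
    obtain ⟨H, hH, hHt⟩ := hsh _ _ hn₀
    let U : Bool → Set (ℕ → Fin r) := fun b =>
      {x | x n₀ ∈ ({if b = true then p.1 n₀ else p.2 n₀} : Set (Fin r))}
    obtain ⟨t, htm, ht0, htH, ht⟩ := seq (L := L) hact hM hLM hLd hLc hLi htr hde (U := U)
      (fun b => open_coord n₀ _) ⟨p, hp, by simp [U], by simp [U]⟩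
      (H := fun F => {x | n₀ * x ∈ H (F.image fun y => n₀ * y)}) (by
        intro F S hS
        obtain ⟨k, hk0, hk⟩ := hH (F.image fun y => n₀ * y) (S.image fun y => n₀ * y) (by
          intro s hs
          obtain ⟨y, hy, rfl⟩ := Finset.mem_image.1 hs
          exact Nat.mul_pos hn0 (hS y hy))
        refine ⟨k, hk0, fun s hs => ?_⟩
        have h1 := hk _ (Finset.mem_image_of_mem _ hs)
        rw [mul_assoc] at h1
        exact h1)
    obtain ⟨n, E, hE⟩ := hHt (fun n => n₀ * t n)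
      (fun a b hab => Nat.mul_lt_mul_of_pos_left (htm hab) hn0)
      (fun n => Nat.mul_pos hn0 (ht0 n)) (fun n => by
        have h1 := htH n
        simp only [Set.mem_ofPred_eq, Finset.image_image] at h1
        exact h1)
    obtain ⟨a, haM, ha⟩ := ht n fun l => decide (l ∈ E)
    obtain ⟨k, hk0, hkV, hkA⟩ := hMA (⋂ l ∈ Finset.range n,
        {x : ℕ → Fin r | x (n₀ * t l) ∈ ({a (n₀ * t l)} : Set (Fin r))})
      (isOpen_biInter_finset fun l _ => open_coord _ _)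
      ⟨a, Set.mem_iInter₂.2 fun l _ => rfl, haM⟩
      ((Finset.range n).image fun l => n₀ * t l) (by
        intro s hs
        obtain ⟨l, -, rfl⟩ := Finset.mem_image.1 hs
        exact Nat.mul_pos hn0 (ht0 l))
    obtain ⟨l, hl, hl'⟩ := hE k hk0
    have h1 : c (k * (n₀ * t l)) = a (n₀ * t l) :=
      Set.mem_iInter₂.1 hkV l (Finset.mem_range.2 hl)
    have h2 : a (t l * n₀) = if decide (l ∈ E) = true then p.1 n₀ else p.2 n₀ := ha l hl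
    rw [mul_comm] at h2
    have h3 : k * (n₀ * t l) ∈ A := by
      have := hkA _ (Finset.mem_image_of_mem (fun l => n₀ * t l) (Finset.mem_range.2 hl))
      rwa [mul_comm] at this
    by_cases hlE : l ∈ E
    · have h4 : c (k * (n₀ * t l)) = p.1 n₀ := by rw [h1, h2]; simp [hlE]
      exact (hl' h3 fun _ => h4).1 hlE
    · have h4 : c (k * (n₀ * t l)) = p.2 n₀ := by rw [h1, h2]; simp [hlE]
      exact (hl' h3 fun h => absurd h hlE).2 h4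
  obtain ⟨x, y, z, hx, hy, hz, he, hxA, hyA, hzA, h1, h2, h3⟩ :=
    Lg.pi_result (X := ℕ → Fin r) dil (fun k hk => hact.cont k hk) hact.mul M hM.closed hM.inv
      (fun x hx y hy => by
        have h1 := hM.orb_eq hact hx
        rw [← h1] at hy
        exact hy) (Or.inr hB) c A (fun V hV hMV S hS => by
        obtain ⟨y, hy⟩ := hM.ne
        obtain ⟨k, hk0, hkV, hkA⟩ := hMA (⋂ s ∈ S, if 0 < s then dil s ⁻¹' V else Set.univ)
          (isOpen_biInter_finset fun s hs => by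
            rw [if_pos (hS s hs)]
            exact hV.preimage (hact.cont s (hS s hs)))
          ⟨y, Set.mem_iInter₂.2 fun s hs => by
            rw [if_pos (hS s hs)]
            exact hMV (hM.inv s (hS s hs) y hy), hy⟩ S hS
        refine ⟨k, hk0, fun s hs => ⟨hkA s hs, ?_⟩⟩
        have h1 := Set.mem_iInter₂.1 hkV s hs
        rw [if_pos (hS s hs)] at h1
        rw [hact.mul s k (hS s hs) hk0]
        exact h1) {w | w 1 ∈ ({x1 1} : Set (Fin r))} (open_coord 1 _) ⟨x1, rfl, hx1M⟩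
  have e1 : c x = x1 1 := by
    have : c (x * 1) = x1 1 := h1
    rwa [mul_one] at this
  have e2 : c y = x1 1 := by
    have : c (y * 1) = x1 1 := h2
    rwa [mul_one] at this
  have e3 : c z = x1 1 := by
    have : c (z * 1) = x1 1 := h3
    rwa [mul_one] at this
  exact hno x y z hx hy hz he hxA hyA hzA (e1.trans e2.symm) (e2.trans e3.symm) (e3 ▸ hx1)

end Pool.Agent.Work.MP_0f91f8_co.Sd
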